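import Pool.Agent.Q24.PS.GB
import Pool.Agent.Q284.PX.Stm

/-!
# Project PX, job GBa: masses, no special prime (helper251)
Adapted from `t_GB` of project PS (helper24).
-/

set_option autoImplicit false

open Finset Polynomial ComplexConjugate
open Pool.Agent.H341R2.Sharp (Mon mem_Mon)

namespace Pool.Agent.Q251.PX

open Pool.Agent.Q284.PS (BB qq PD Sm NMul S_REC S_GI S_T2)
open Pool.Agent.Q284.PX
open Pool.Agent.Q24.PS (mem_PD Mon_zero three_le)

lemma om2_pos {q : ℝ} (hq : 0 < q) (d : ℕ) {n : ℕ} (hn : 1 ≤ n) : 0 < om2 q d n := by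
  unfold om2
  have : (0 : ℝ) < n := by exact_mod_cast hn
  positivity

lemma om2_nonneg {q : ℝ} (hq : 0 < q) (d n : ℕ) : 0 ≤ om2 q d n := by
  unfold om2
  positivity

lemma w2_nonneg {q : ℝ} (hq : 0 < q) (d n : ℕ) : 0 ≤ w2 q d n := by
  unfold w2
  positivity

lemma om2_mul {q : ℝ} (hq : 1 ≤ q) {d i n : ℕ} (hn : 1 ≤ n) (h1 : n ≤ 4 * i) (h2 : 4 * i ≤ 3 * n) :
    om2 q d i * om2 q d (n - i) ≤ (16 / 3) ^ 4 / (n : ℝ) ^ 4 * om2 q d n := by
  have hin : i ≤ n := by omega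
  have hnr : (1 : ℝ) ≤ n := by exact_mod_cast hn
  have hir : (n : ℝ) ≤ 4 * i := by exact_mod_cast h1
  have hir2 : 4 * (i : ℝ) ≤ 3 * n := by exact_mod_cast h2
  have hqp : 0 < q := by linarith
  have hsub : ((n - i : ℕ) : ℝ) = n - i := by
    rw [Nat.cast_sub hin]
  have hi0 : (0 : ℝ) < i := by linarith
  have hni : (0 : ℝ) < (n : ℝ) - i := by linarith
  have hprod : 3 / 16 * (n : ℝ) ^ 2 ≤ i * (n - i) := by nlinarith
  unfold om2
  rw [hsub]
  have e2 : q ^ ((1 - 5 / (d : ℝ)) * (i : ℝ)) * q ^ ((1 - 5 / (d : ℝ)) * ((n : ℝ) - i)) =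
      q ^ ((1 - 5 / (d : ℝ)) * (n : ℝ)) := by
    rw [← Real.rpow_add hqp]
    congr 1
    ring
  have e3 : (3 / 16 * (n : ℝ) ^ 2) ^ 4 ≤ (i : ℝ) ^ 4 * ((n : ℝ) - i) ^ 4 := by
    rw [← mul_pow]
    exact pow_le_pow_left₀ (by positivity) hprod 4
  have hQ : 0 < q ^ ((1 - 5 / (d : ℝ)) * (n : ℝ)) := by positivity
  calc q ^ ((1 - 5 / (d : ℝ)) * (i : ℝ)) / (i : ℝ) ^ 4 *
        (q ^ ((1 - 5 / (d : ℝ)) * ((n : ℝ) - i)) / ((n : ℝ) - i) ^ 4) =
      (q ^ ((1 - 5 / (d : ℝ)) * (i : ℝ)) * q ^ ((1 - 5 / (d : ℝ)) * ((n : ℝ) - i))) /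
        ((i : ℝ) ^ 4 * ((n : ℝ) - i) ^ 4) := by
        field_simp
    _ ≤ q ^ ((1 - 5 / (d : ℝ)) * (n : ℝ)) / (3 / 16 * (n : ℝ) ^ 2) ^ 4 := by
        rw [e2]
        exact div_le_div₀ hQ.le le_rfl (by positivity) e3
    _ = _ := by
        field_simp

section main

variable {F : Type} [Field F] [Fintype F]

theorem gb_core (hR : S_REC) (hGI : S_GI) (hWC : S_WC2) (hM : S_AFM) {d : ℕ} (hd : 2 ≤ d)
    (hq : 3 ≤ qq F) {N : ℕ} (v : F[X] → ℕ → ℝ) (hv : ∀ P : F[X], v P 0 = 1)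
    (hZ : ∀ j : ℕ, 1 ≤ j → j ≤ N →
      ∑ P ∈ PD F j, |v P (j / P.natDegree)| ≤ 2 * BB * w2 (qq F) d j ∧
      ∑ P ∈ PD F j, v P (j / P.natDegree) ^ 2 ≤ 2 * BB ^ 2 * om2 (qq F) d j) :
    ∀ n : ℕ, 1 ≤ n → n ≤ N → ∑ f ∈ Mon F n, |AF v f| ≤ 5 / 2 * BB * w2 (qq F) d n ∧
      ∑ f ∈ Mon F n, AF v f ^ 2 ≤ 5 / 2 * BB ^ 2 * om2 (qq F) d n := by
  have hqp : 0 < qq F := by linarith
  obtain ⟨m1, m2, m3, m4, m5⟩ := hM F v hv
  have hPD : ∀ j : ℕ, ∀ P ∈ PD F j, AF v (P ^ (j / P.natDegree)) = v P (j / P.natDegree) := by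
    intro j P hP
    rw [mem_PD] at hP
    exact m3 P _ hP.1.1 hP.2.1
  intro n hn1 hn
  constructor
  · have key := hGI (fun n => ∑ f ∈ Mon F n, |AF v f|)
      (fun j => ∑ P ∈ PD F j, |v P (j / P.natDegree)|) (fun n => w2 (qq F) d n) (2 * BB) 16 N
      (by unfold BB; norm_num) (by unfold BB; norm_num) (by
        simp only [Mon_zero, sum_singleton, m1, abs_one])
      (fun n => sum_nonneg fun _ _ => abs_nonneg _) (fun n => sum_nonneg fun _ _ => abs_nonneg _)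
      (fun n => w2_nonneg hqp d n) (fun n _ _ => (hWC (qq F) d n hq (by omega)).1)
      (fun n h1 h2 => (hZ n h1 h2).1) (fun n h1 h2 => by
        have h3 := hR F (fun f : F[X] => |AF v f|) m4 n h1
        refine h3.trans (le_of_eq ?_)
        apply sum_congr rfl
        intro j _
        congr 2
        exact sum_congr rfl fun P hP => by rw [hPD j P hP]) n hn1 hn
    refine key.trans (le_of_eq ?_)
    ring
  · have key := hGI (fun n => ∑ f ∈ Mon F n, AF v f ^ 2)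
      (fun j => ∑ P ∈ PD F j, v P (j / P.natDegree) ^ 2) (fun n => om2 (qq F) d n) (2 * BB ^ 2) 35 N
      (by unfold BB; norm_num) (by unfold BB; norm_num) (by
        simp only [Mon_zero, sum_singleton, m1, one_pow])
      (fun n => sum_nonneg fun _ _ => by positivity) (fun n => sum_nonneg fun _ _ => by positivity)
      (fun n => om2_nonneg hqp d n) (fun n _ _ => (hWC (qq F) d n hq (by omega)).2)
      (fun n h1 h2 => (hZ n h1 h2).2) (fun n h1 h2 => by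
        have h3 := hR F (fun f : F[X] => AF v f ^ 2) m5 n h1
        refine h3.trans (le_of_eq ?_)
        apply sum_congr rfl
        intro j _
        congr 2
        exact sum_congr rfl fun P hP => by rw [hPD j P hP]) n hn1 hn
    refine key.trans (le_of_eq ?_)
    ring

end main

theorem t_GBa : S_REC → S_GI → S_T2 → S_WC2 → S_ZB2 → S_AFM → S_GBa := by
  intro hR hGI hT hWC ⟨d₁, hZB⟩ hM
  refine ⟨max d₁ 80, fun d hd F _ _ hF K h hK hL N P₀ a hG => ?_⟩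
  have hd1 : d₁ ≤ d := (le_max_left _ _).trans hd
  have hd2 : 80 ≤ d := (le_max_right _ _).trans hd
  have hq := three_le (F := F) hF
  have hqp : 0 < qq F := by linarith
  have hZ := fun j h1 h2 => hZB d hd1 F hF K h hK hL N P₀ a hG j h1 h2
  have hv : ∀ P : F[X], Lo h P₀ g0 a P 0 = 1 := by
    intro P
    unfold Lo
    by_cases hP : P = P₀
    · rw [if_pos hP]
      simp [g0]
    · rw [if_neg hP]
      exact hL.zero _
  have hcore := gb_core hR hGI hWC hM (by omega) hq (N := N) (Lo h P₀ g0 a) hv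
    (fun j h1 h2 => ⟨(hZ j h1 h2).1, (hZ j h1 h2).2.1⟩)
  intro n hn1 hn
  refine ⟨(hcore n hn1 hn).1, (hcore n hn1 hn).2, ?_⟩
  obtain ⟨m1, m2, m3, m4, m5⟩ := hM F (Lo h P₀ g0 a) hv
  have hn40 : (1 : ℝ) ≤ n := by exact_mod_cast hn1
  have hnp : (0 : ℝ) < n := by linarith
  have hB : 0 < BB := by
    unfold BB
    norm_num
  obtain ⟨W, hW⟩ : ∃ W : ℝ, W = om2 (qq F) d n := ⟨_, rfl⟩
  have hW0 : 0 < W := by
    rw [hW]
    exact om2_pos hqp d hn1
  obtain ⟨G, hGd⟩ : ∃ G : ℕ → ℝ, G = fun m => ∑ f ∈ Mon F m, AF (Lo h P₀ g0 a) f ^ 2 := ⟨_, rfl⟩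
  have hG0 : G 0 = 1 := by
    rw [hGd]
    simp only [Mon_zero, sum_singleton, m1, one_pow]
  have hGn : ∀ m, 0 ≤ G m := by
    intro m
    rw [hGd]
    exact sum_nonneg fun _ _ => by positivity
  have hG1 : ∀ m, 1 ≤ m → m ≤ N → G m ≤ 5 / 2 * BB ^ 2 * om2 (qq F) d m := by
    intro m h1 h2
    rw [hGd]
    exact (hcore m h1 h2).2
  have key := hT F (fun f : F[X] => AF (Lo h P₀ g0 a) f ^ 2) m5 n hn1
  refine key.trans ?_
  rw [← hW]
  -- the first sum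
  have s1 : ∑ j ∈ (Icc 1 n).filter (fun j => n < 2 * j),
      (∑ P ∈ (PD F j).filter (fun P => P.natDegree < j), AF (Lo h P₀ g0 a) (P ^ (j / P.natDegree)) ^ 2) *
        ∑ f ∈ Mon F (n - j), AF (Lo h P₀ g0 a) f ^ 2 ≤ 3 / 10 ^ 6 * (BB ^ 2 * W / n) := by
    have h1 : ∀ j ∈ (Icc 1 n).filter (fun j => n < 2 * j),
        (∑ P ∈ (PD F j).filter (fun P => P.natDegree < j),
          AF (Lo h P₀ g0 a) (P ^ (j / P.natDegree)) ^ 2) *
          ∑ f ∈ Mon F (n - j), AF (Lo h P₀ g0 a) f ^ 2 ≤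
            2 * BB ^ 2 / (10 ^ 6 * n) * (om2 (qq F) d j * G (n - j)) := by
      intro j hj
      rw [mem_filter, mem_Icc] at hj
      obtain ⟨⟨j1, j2⟩, j3⟩ := hj
      have h2 : ∑ P ∈ (PD F j).filter (fun P => P.natDegree < j),
            AF (Lo h P₀ g0 a) (P ^ (j / P.natDegree)) ^ 2 =
          ∑ P ∈ (PD F j).filter (fun P => P.natDegree < j), Lo h P₀ g0 a P (j / P.natDegree) ^ 2 := by
        apply sum_congr rfl
        intro P hP
        rw [mem_filter, mem_PD] at hP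
        rw [m3 P _ hP.1.1.1 hP.1.2.1]
      have h3 := (hZ j j1 (by omega)).2.2
      have hjp : (0 : ℝ) < j := by exact_mod_cast j1
      have hj3 : (n : ℝ) ≤ 2 * j := by exact_mod_cast j3.le
      have hom := om2_pos hqp d j1
      have h4 : BB ^ 2 * om2 (qq F) d j / (10 ^ 6 * j) ≤ 2 * BB ^ 2 / (10 ^ 6 * n) * om2 (qq F) d j := by
        have h5 : 2 * BB ^ 2 / (10 ^ 6 * n) * om2 (qq F) d j =
            BB ^ 2 * om2 (qq F) d j / (10 ^ 6 * (n / 2)) := by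
          field_simp
        rw [h5]
        apply div_le_div_of_nonneg_left (by positivity) (by positivity)
        linarith
      have h5 : (∑ f ∈ Mon F (n - j), AF (Lo h P₀ g0 a) f ^ 2) = G (n - j) := by
        rw [hGd]
      rw [h2, h5, ← mul_assoc]
      exact mul_le_mul_of_nonneg_right (h3.trans h4) (hGn _)
    refine (sum_le_sum h1).trans ?_
    have h2 : ∑ j ∈ (Icc 1 n).filter (fun j => n < 2 * j),
          2 * BB ^ 2 / (10 ^ 6 * n) * (om2 (qq F) d j * G (n - j)) ≤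
        ∑ j ∈ Icc 1 n, 2 * BB ^ 2 / (10 ^ 6 * n) * (om2 (qq F) d j * G (n - j)) := by
      apply sum_le_sum_of_subset_of_nonneg (filter_subset _ _)
      intro j hj _
      rw [mem_Icc] at hj
      have hom := om2_pos hqp d hj.1
      have := hGn (n - j)
      positivity
    refine h2.trans ?_
    rw [← mul_sum]
    have h3 : ∑ j ∈ Icc 1 n, om2 (qq F) d j * G (n - j) ≤ 5 / 2 * BB ^ 2 * (35 * W) + W := by
      obtain ⟨m, hm⟩ : ∃ m, n = m + 1 := ⟨n - 1, by omega⟩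
      have h4 : ∑ j ∈ Icc 1 n, om2 (qq F) d j * G (n - j) =
          ∑ j ∈ Icc 1 (n - 1), om2 (qq F) d j * G (n - j) + om2 (qq F) d n * G (n - n) := by
        conv_lhs => rw [hm, sum_Icc_succ_top (by omega)]
        rw [hm, Nat.add_sub_cancel]
      rw [h4, Nat.sub_self, hG0, mul_one, ← hW]
      have h5 : ∑ j ∈ Icc 1 (n - 1), om2 (qq F) d j * G (n - j) ≤
          ∑ j ∈ Icc 1 (n - 1), 5 / 2 * BB ^ 2 * (om2 (qq F) d j * om2 (qq F) d (n - j)) := by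
        apply sum_le_sum
        intro j hj
        rw [mem_Icc] at hj
        have hom := om2_pos hqp d hj.1
        have h6 := hG1 (n - j) (by omega) (by omega)
        have h7 := mul_le_mul_of_nonneg_left h6 hom.le
        linarith
      rw [← mul_sum] at h5
      have h6 := (hWC (qq F) d n hq (by omega)).2
      rw [← hW] at h6
      have h7 := mul_le_mul_of_nonneg_left h6 (show 0 ≤ 5 / 2 * BB ^ 2 by positivity)
      linarith
    have h4 : 5 / 2 * BB ^ 2 * (35 * W) + W ≤ 3 / 2 * W := by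
      unfold BB
      nlinarith
    calc 2 * BB ^ 2 / (10 ^ 6 * n) * ∑ j ∈ Icc 1 n, om2 (qq F) d j * G (n - j) ≤
        2 * BB ^ 2 / (10 ^ 6 * n) * (3 / 2 * W) := mul_le_mul_of_nonneg_left (h3.trans h4) (by positivity)
      _ = _ := by
          field_simp
  -- the second sum
  have s2 : ∑ i ∈ (Icc 1 n).filter (fun i => n ≤ 4 * i ∧ 4 * i ≤ 3 * n),
      (∑ f ∈ Mon F i, AF (Lo h P₀ g0 a) f ^ 2) * ∑ f ∈ Mon F (n - i), AF (Lo h P₀ g0 a) f ^ 2 ≤
        97 / 10 ^ 6 * (BB ^ 2 * W / n) := by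
    have h1 : ∀ i ∈ (Icc 1 n).filter (fun i => n ≤ 4 * i ∧ 4 * i ≤ 3 * n),
        (∑ f ∈ Mon F i, AF (Lo h P₀ g0 a) f ^ 2) * ∑ f ∈ Mon F (n - i), AF (Lo h P₀ g0 a) f ^ 2 ≤
          25 / 4 * BB ^ 4 * ((16 / 3) ^ 4 / (n : ℝ) ^ 4 * W) := by
      intro i hi
      rw [mem_filter, mem_Icc] at hi
      obtain ⟨⟨i1, i2⟩, i3, i4⟩ := hi
      have h2 := hG1 i i1 (by omega)
      have h3 := hG1 (n - i) (by omega) (by omega)
      have h4 := om2_mul (q := qq F) (by linarith) (d := d) hn1 i3 i4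
      rw [← hW] at h4
      have h5 : (∑ f ∈ Mon F i, AF (Lo h P₀ g0 a) f ^ 2) = G i := by rw [hGd]
      have h6 : (∑ f ∈ Mon F (n - i), AF (Lo h P₀ g0 a) f ^ 2) = G (n - i) := by rw [hGd]
      rw [h5, h6]
      have ho1 := om2_pos hqp d i1
      have h7 : G i * G (n - i) ≤
          (5 / 2 * BB ^ 2 * om2 (qq F) d i) * (5 / 2 * BB ^ 2 * om2 (qq F) d (n - i)) :=
        mul_le_mul h2 h3 (hGn _) (by positivity)
      have h8 := mul_le_mul_of_nonneg_left h4 (show 0 ≤ 25 / 4 * BB ^ 4 by positivity)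
      calc G i * G (n - i) ≤
          (5 / 2 * BB ^ 2 * om2 (qq F) d i) * (5 / 2 * BB ^ 2 * om2 (qq F) d (n - i)) := h7
        _ = 25 / 4 * BB ^ 4 * (om2 (qq F) d i * om2 (qq F) d (n - i)) := by ring
        _ ≤ _ := h8
    refine (sum_le_sum h1).trans ?_
    rw [sum_const, nsmul_eq_mul]
    have h2 : (((Icc 1 n).filter (fun i => n ≤ 4 * i ∧ 4 * i ≤ 3 * n)).card : ℝ) ≤ n := by
      have h3 := card_filter_le (Icc 1 n) (fun i => n ≤ 4 * i ∧ 4 * i ≤ 3 * n)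
      rw [Nat.card_Icc, Nat.add_sub_cancel] at h3
      exact_mod_cast h3
    have h3 : (n : ℝ) * (25 / 4 * BB ^ 4 * ((16 / 3) ^ 4 / (n : ℝ) ^ 4 * W)) =
        25 / 4 * ((16 / 3) ^ 4) * BB ^ 2 / (n : ℝ) ^ 2 * (BB ^ 2 * W / n) := by
      field_simp
    have h4 : 25 / 4 * ((16 / 3) ^ 4) * BB ^ 2 / (n : ℝ) ^ 2 ≤ 97 / 10 ^ 6 := by
      rw [div_le_iff₀ (by positivity)]
      have h5 : (1 : ℝ) ≤ (n : ℝ) ^ 2 := by nlinarith
      unfold BB
      nlinarith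
    calc _ ≤ (n : ℝ) * (25 / 4 * BB ^ 4 * ((16 / 3) ^ 4 / (n : ℝ) ^ 4 * W)) :=
          mul_le_mul_of_nonneg_right h2 (by positivity)
      _ = 25 / 4 * ((16 / 3) ^ 4) * BB ^ 2 / (n : ℝ) ^ 2 * (BB ^ 2 * W / n) := h3
      _ ≤ _ := mul_le_mul_of_nonneg_right h4 (by positivity)
  have h9 : 0 ≤ BB ^ 2 * W / n := by positivity
  linarith

end Pool.Agent.Q251.PX
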